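import Pool.Agent.H148L.Main
import Pool.Agent.H148L.Ex

/-!
# Rational points of varieties over a product of CM elliptic curves lie over few subvarieties

`E_i : y² = x³ + a_i x + b_i` (`i = 1, …, r`) are elliptic curves over `ℚ`, of arbitrary rank, which
have exactly `p` affine points over `𝔽_p` for all large primes `p ≡ -1 mod M`, for some `M` (curves
with complex multiplication), `A = E_1 × … × E_r`, and `X ⊂ A × 𝔸ⁿ` is an arbitrary closed
subvariety, given by polynomials `F_l(V; t)` with integer coefficients which are multihomogeneous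
in the homogeneous coordinates `V_i` of the plane cubics `E_i`. Let `e` be the largest dimension of
the fibres `X_P ⊂ 𝔸ⁿ`, `P ∈ A(ℂ)`.

Theorem. There is a number `D` such that for all `ε > 0` and `H ≥ 1` the points `t ∈ ℚⁿ` of height
at most `H` over which `X` has a rational point (of any height over `A`) lie on at most
`C exp((log H)^(1/2 + ε))` closed subsets of `𝔸ⁿ`, each of dimension at most `e` and given by
equations of degree at most `D`. In particular there are at most `C |S|^e exp((log H)^(1/2 + ε))`
such `t` in the grid `Sⁿ`, for every finite set `S` of rational numbers (for instance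
`O(H^(e + ε))` integral points, and `exp((log H)^(1/2 + ε))` rational points if `e = 0`), and in all
at most `C H^(e + 1) exp((log H)^(1/2 + ε))`, whereas there are about `H^(n + 1)` rational points of
height at most `H`.

The exponent `e` is the right one: a single fibre `X_P`, `P ∈ A(ℚ)`, may be a linear space of
dimension `e`. If the image of `X` in `𝔸ⁿ` has dimension greater than `e`, then all the rational
points of `X` over the `t` of height at most `H` lie on `C exp((log H)^(1/2 + ε))` proper closed
subvarieties of bounded degree. For `X` of general type Lang's conjecture predicts that finitely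
many, independent of `H`, suffice.

Part 2 is an explicit class in every dimension and codimension: the complete intersections
`X : ∑_k f_lk(P) t_k^m = 0` (`l = 1, …, s`) in `A × ℙⁿ`, `(f_lk)` any matrix of forms, the `l`-th row
of multidegree `d_l`, which has rank `s` at all complex points of `A`, on the chart `t_0 = 1`. The
dimension of `X` is `r + n - s`, and if `X` is smooth, all `d_l` are positive and `s m > n + 1`, then
`X` is of general type. Here `e = n - s`.

Method: Mordell-Weil sieve at primes with smooth `p + 1` (for one class of `A(ℚ)` modulo a suitable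
`N` the fibre over `P` is determined modulo so many primes that the monomials of the points `t` of
this class are linearly dependent); ultraproduct for the uniform equations of the fibres.
-/

set_option autoImplicit false

namespace Pool.Agent.Results.MP_2ae8fe_ag.FewSubvarieties

open MvPolynomial Pool.Agent.W659 Pool.Agent.W659.FD Pool.Agent.H148L

theorem result :
    -- Part 1: arbitrary closed subvarieties
    (∀ (r n s : ℕ) (a b : Fin r → ℤ), CMType a b →
      ∀ (F : Fin s → Poly r n) (d : Fin s → Fin r → ℕ), (∀ l, MultiHomog (F l) (d l)) →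
      ∀ e : ℕ, (∀ V : Fin r → Fin 3 → ℂ, (∀ i, FD.OnE (a i) (b i) (V i)) →
        DimLE e (Fibre F V)) →
      ∃ D : ℕ, ∀ ε : ℝ, 0 < ε → ∃ C : ℝ, ∀ H : ℕ, 1 ≤ H →
        Few e D (C * Real.exp (Real.log H ^ (1 / 2 + ε))) (Over a b F H) ∧
        (∀ S : Finset ℚ, S.Nonempty →
          (({t | t ∈ Over a b F H ∧ ∀ k, t k ∈ S} : Set (Fin n → ℚ)).ncard : ℝ) ≤
            C * (S.card : ℝ) ^ e * Real.exp (Real.log H ^ (1 / 2 + ε))) ∧
        ((Over a b F H).ncard : ℝ) ≤
          C * (H : ℝ) ^ (e + 1) * Real.exp (Real.log H ^ (1 / 2 + ε))) ∧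
    -- Part 2: an explicit class in every dimension and codimension
    (∀ (r n s m : ℕ), 1 ≤ s → s ≤ n → 1 ≤ m →
      ∀ (a b : Fin r → ℤ), (∀ i, a i * b i = 0 ∧ (a i ≠ 0 ∨ b i ≠ 0)) →
      ∀ (f : Fin s → Fin (n + 1) → MvPolynomial (Fin r × Fin 3) ℤ) (d : Fin s → Fin r → ℕ),
      (∀ l k, IsForm (f l k) (d l)) →
      (∀ V : Fin r → Fin 3 → ℂ, (∀ i, FD.OnE (a i) (b i) (V i)) →
        LinearIndependent ℂ (fun (l : Fin s) (k : Fin (n + 1)) =>
          (aeval (fun ij : Fin r × Fin 3 => V ij.1 ij.2) (f l k) : ℂ))) →
      ∃ D : ℕ, ∀ ε : ℝ, 0 < ε → ∃ C : ℝ, ∀ H : ℕ, 1 ≤ H →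
        Few (n - s) D (C * Real.exp (Real.log H ^ (1 / 2 + ε)))
          (Over a b (fun l => diag m (f l)) H) ∧
        ((Over a b (fun l => diag m (f l)) H).ncard : ℝ) ≤
          C * (H : ℝ) ^ (n - s + 1) * Real.exp (Real.log H ^ (1 / 2 + ε))) := by
  refine ⟨main2, ?_⟩
  intro r n s m hs hsn hm a b hab f d hf hV
  obtain ⟨D, hD⟩ := main2 r n s a b (cmType_of a b hab) (fun l => diag m (f l)) d
    (fun l => diag_homog m (f l) (d l) (hf l)) (n - s)
    (fun V hVE => diag_dim hs hsn m hm f V (hV V hVE))
  refine ⟨D, fun ε hε => ?_⟩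
  obtain ⟨C, hC⟩ := hD ε hε
  exact ⟨C, fun H hH => ⟨(hC H hH).1, (hC H hH).2.2⟩⟩

end Pool.Agent.Results.MP_2ae8fe_ag.FewSubvarieties
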