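import Mathlib
import Pool.Agent.Helper435.RT.MainE

/-!
MP_2ae8fe_ag, Q1: rational points given by formulas in one real variable are not Zariski dense in
varieties which are not unirational, for instance in varieties of general type.
-/

set_option autoImplicit false

namespace Pool.Agent.Results.MP_2ae8fe_ag.FormulasNotDense

open MvPolynomial Pool.Agent.Helper435.RT

/-- There are numbers `B N d n` with the following property. Let `K` be a field, embedded in `ℂ` by
`σ`, let `X` be the projective variety in the projective space of dimension `N` over `K` given by the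
forms in `I`, and let `L` be a field which contains `K`, with an embedding `τ` in `ℂ` which extends
`σ`.

Suppose that `X` is not unirational over `ℂ`. Then, for all formulas `f` in one real variable with
at most `n` nested operations, at most `B N d n` points of `X(L)` are given by the formulas, if `X`
is given by forms of degree at most `d`, or these points are not Zariski dense in `X(ℂ)`. If `X(ℂ)`
is irreducible (and not empty), they are never Zariski dense.

If `X` is unirational over `L`, then for some formulas `f` the points of `X(L)` which are given by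
the formulas are Zariski dense. -/
theorem result : ∃ B : ℕ → ℕ → ℕ → ℕ, ∀ (K : Type) [Field K] (σ : K →+* ℂ) (N : ℕ)
    (I : Ideal (MvPolynomial (Fin (N + 1)) K)) (L : Type) [Field L] [Algebra K L] (τ : L →+* ℂ),
    τ.comp (algebraMap K L) = σ →
    (¬ Unirat σ I → ∀ (n : ℕ) (f : Fin (N + 1) → ℝ → ℂ), (∀ j, Formula n (f j)) →
      (∀ d, GenBy d I → (Pts L I ∩ GivenBy τ f).encard ≤ B N d n ∨
        NotDense σ I τ (Pts L I ∩ GivenBy τ f)) ∧
      (GeomIrreducible σ I → (∃ x, Lies σ I x ∧ x ≠ 0) →
        NotDense σ I τ (Pts L I ∩ GivenBy τ f))) ∧
    (UniratOver σ τ I → ∃ (n : ℕ) (f : Fin (N + 1) → ℝ → ℂ), (∀ j, Formula n (f j)) ∧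
      ¬ NotDense σ I τ (Pts L I ∩ GivenBy τ f)) :=
  mainE

end Pool.Agent.Results.MP_2ae8fe_ag.FormulasNotDense
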